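import Pool.Agent.helper76.DP.Spec

/-!
# Row `dp:LOWC` (MP_bf63dc, project DP)
-/

set_option autoImplicit false

namespace Pool.Agent.DP

open Finset
open Pool.Agent.FR (mean Eig)

theorem LOWC_mono {α : Type} [Fintype α] {f g : α → ℝ} (h : ∀ x, f x ≤ g x) : mean f ≤ mean g := by
  unfold mean
  gcongr with x _
  exact h x

theorem LOWC_add {α : Type} [Fintype α] (f g : α → ℝ) : mean (fun x => f x + g x) = mean f + mean g := by
  simp only [mean, Finset.sum_add_distrib, add_div]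

theorem LOWC_sub {α : Type} [Fintype α] (f g : α → ℝ) : mean (fun x => f x - g x) = mean f - mean g := by
  simp only [mean, Finset.sum_sub_distrib, sub_div]

theorem LOWC_mul {α : Type} [Fintype α] (c : ℝ) (f : α → ℝ) : mean (fun x => c * f x) = c * mean f := by
  simp only [mean, ← Finset.mul_sum, mul_div_assoc]

theorem LOWC_const {α : Type} [Fintype α] [Nonempty α] (c : ℝ) : mean (fun _ : α => c) = c := by
  simp only [mean, Finset.sum_const, Finset.card_univ, nsmul_eq_mul]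
  rw [mul_div_cancel_left₀]
  exact_mod_cast Fintype.card_ne_zero

theorem LOWC_prod {α β : Type} [Fintype α] [Fintype β] (f : α × β → ℝ) : mean f = mean fun a => mean fun b => f (a, b) := by
  simp only [mean, Fintype.sum_prod_type, Fintype.card_prod, Nat.cast_mul]
  rw [← Finset.sum_div, div_div, mul_comm]

theorem LOWC_comm {α β : Type} [Fintype α] [Fintype β] (f : α → β → ℝ) : (mean fun a => mean fun b => f a b) = mean fun b => mean fun a => f a b := by
  simp only [mean, ← Finset.sum_div]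
  rw [Finset.sum_comm, div_div, div_div, mul_comm]

theorem LOWC_perm {α : Type} [Fintype α] (g : Equiv.Perm α) (f : α → ℝ) : (mean fun a => f (g a)) = mean f := by
  simp only [mean]
  rw [Equiv.sum_comp g f]

/-- the average over the second coordinates -/
theorem LOWC_fold {Z W : Type} [Fintype Z] [Fintype W] (u v : Z × W → ℝ) (h : Z × Z → ℝ) :
    (mean fun p : (Z × W) × (Z × W) => u p.1 * v p.2 * h (p.1.1, p.2.1)) = mean fun z : Z × Z => h z * ((mean fun w => u (z.1, w)) * mean fun w => v (z.2, w)) := by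
  rw [LOWC_prod, LOWC_prod, LOWC_prod]
  have e1 : ∀ a : Z, (mean fun b : W => mean fun b' : Z × W => u ((a, b), b').1 * v ((a, b), b').2 * h (((a, b), b').1.1, ((a, b), b').2.1)) =
      mean fun a' : Z => h (a, a') * ((mean fun w => u (a, w)) * mean fun w => v (a', w)) := by
    intro a
    have e2 : ∀ b : W, (mean fun b' : Z × W => u ((a, b), b').1 * v ((a, b), b').2 * h (((a, b), b').1.1, ((a, b), b').2.1)) =
        u (a, b) * mean fun a' : Z => h (a, a') * mean fun w => v (a', w) := by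
      intro b
      rw [LOWC_prod, ← LOWC_mul]
      refine congrArg mean (funext fun a' => ?_)
      rw [← mul_assoc, ← LOWC_mul]
      refine congrArg mean (funext fun w => ?_)
      ring
    rw [funext e2]
    have e3 : ∀ c : ℝ, (mean fun b : W => u (a, b) * c) = (mean fun w => u (a, w)) * c := by
      intro c
      rw [mul_comm, ← LOWC_mul]
      refine congrArg mean (funext fun w => ?_)
      ring
    rw [e3, ← LOWC_mul]
    refine congrArg mean (funext fun a' => ?_)
    ring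
  rw [funext e1]

theorem LOWC : LOWC_stmt := by
  intro Φ Z W _ _ _ _ _ _ A g Y β ω d θ e hθ hA hm hM hY hβ hω hd hYe hβe
  obtain ⟨m, hmdef⟩ : ∃ m : Φ → Z → ℝ, ∀ φ z, m φ z = mean fun w => A φ (z, w) := ⟨_, fun _ _ => rfl⟩
  -- pointwise
  have hpt : ∀ φ (p : (Z × W) × (Z × W)), A (g φ) p.1 * A φ p.2 * (ω (p.1.1, p.2.1) * d (p.1.1, p.2.1)) - ω (p.1.1, p.2.1) * |β p - d (p.1.1, p.2.1)| -
      2 * (A (g φ) p.1 * A φ p.2 * Y p) ≤ A (g φ) p.1 * A φ p.2 * (ω (p.1.1, p.2.1) * (β p - Y p)) := by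
    intro φ p
    have h1 := hA (g φ) p.1
    have h2 := hA φ p.2
    have h3 := hω (p.1.1, p.2.1)
    have h4 := hY p
    have h12 : 0 ≤ A (g φ) p.1 * A φ p.2 := mul_nonneg h1.1 h2.1
    have h12' : A (g φ) p.1 * A φ p.2 ≤ 1 := mul_le_one₀ h1.2 h2.1 h2.2
    have h5 : ω (p.1.1, p.2.1) * (d (p.1.1, p.2.1) - β p) ≤ ω (p.1.1, p.2.1) * |β p - d (p.1.1, p.2.1)| := by
      refine mul_le_mul_of_nonneg_left ?_ h3.1
      rw [abs_sub_comm]
      exact le_abs_self _
    have h6 : A (g φ) p.1 * A φ p.2 * (ω (p.1.1, p.2.1) * (d (p.1.1, p.2.1) - β p)) ≤ ω (p.1.1, p.2.1) * |β p - d (p.1.1, p.2.1)| := by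
      have h7 : 0 ≤ ω (p.1.1, p.2.1) * |β p - d (p.1.1, p.2.1)| := mul_nonneg h3.1 (abs_nonneg _)
      calc A (g φ) p.1 * A φ p.2 * (ω (p.1.1, p.2.1) * (d (p.1.1, p.2.1) - β p)) ≤ A (g φ) p.1 * A φ p.2 * (ω (p.1.1, p.2.1) * |β p - d (p.1.1, p.2.1)|) :=
            mul_le_mul_of_nonneg_left h5 h12
        _ ≤ 1 * (ω (p.1.1, p.2.1) * |β p - d (p.1.1, p.2.1)|) := mul_le_mul_of_nonneg_right h12' h7
        _ = _ := one_mul _
    have h8 : A (g φ) p.1 * A φ p.2 * (ω (p.1.1, p.2.1) * Y p) ≤ A (g φ) p.1 * A φ p.2 * (2 * Y p) :=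
      mul_le_mul_of_nonneg_left (mul_le_mul_of_nonneg_right h3.2 h4.1) h12
    nlinarith
  -- the main term
  have hmain : θ * (mean fun z => ω z * d z) ≤ mean fun φ => mean fun p : (Z × W) × (Z × W) => A (g φ) p.1 * A φ p.2 * (ω (p.1.1, p.2.1) * d (p.1.1, p.2.1)) := by
    have e1 : ∀ φ, (mean fun p : (Z × W) × (Z × W) => A (g φ) p.1 * A φ p.2 * (ω (p.1.1, p.2.1) * d (p.1.1, p.2.1))) =
        mean fun z : Z × Z => (ω z * d z) * (m (g φ) z.1 * m φ z.2) := by
      intro φ
      have := LOWC_fold (A (g φ)) (A φ) (fun z => ω z * d z)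
      simp only [hmdef]
      exact this
    rw [funext e1, LOWC_comm, ← LOWC_mul]
    refine LOWC_mono fun z => ?_
    rw [LOWC_mul, mul_comm]
    refine mul_le_mul_of_nonneg_left ?_ (mul_nonneg (hω z).1 (hd z).1)
    have e2 : (mean fun φ => (m (g φ) z.1 + m φ z.2) / 2 - 1 / 4) ≤ mean fun φ => m (g φ) z.1 * m φ z.2 := by
      refine LOWC_mono fun φ => ?_
      have h1 : m (g φ) z.1 ≤ 1 / 2 := by rw [hmdef]; exact hm _ _
      have h2 : m φ z.2 ≤ 1 / 2 := by rw [hmdef]; exact hm _ _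
      nlinarith
    refine le_trans ?_ e2
    rw [LOWC_sub, LOWC_const]
    have e3 : (mean fun φ => (m (g φ) z.1 + m φ z.2) / 2) = (mean (fun φ => m φ z.1) + mean (fun φ => m φ z.2)) / 2 := by
      rw [← LOWC_perm g (fun φ => m φ z.1), ← LOWC_add, div_eq_inv_mul, ← LOWC_mul]
      refine congrArg mean (funext fun φ => ?_)
      ring
    rw [e3]
    have h1 : 1 / 4 + θ ≤ mean fun φ => m φ z.1 := by simp only [hmdef]; exact hM z.1
    have h2 : 1 / 4 + θ ≤ mean fun φ => m φ z.2 := by simp only [hmdef]; exact hM z.2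
    linarith
  have hsum := LOWC_mono (fun φ => LOWC_mono (hpt φ))
  have e4 : (mean fun φ => mean fun p : (Z × W) × (Z × W) => A (g φ) p.1 * A φ p.2 * (ω (p.1.1, p.2.1) * d (p.1.1, p.2.1)) - ω (p.1.1, p.2.1) * |β p - d (p.1.1, p.2.1)| -
      2 * (A (g φ) p.1 * A φ p.2 * Y p)) = (mean fun φ => mean fun p : (Z × W) × (Z × W) => A (g φ) p.1 * A φ p.2 * (ω (p.1.1, p.2.1) * d (p.1.1, p.2.1))) -
      (mean fun p : (Z × W) × (Z × W) => ω (p.1.1, p.2.1) * |β p - d (p.1.1, p.2.1)|) - 2 * mean fun φ => mean fun p : (Z × W) × (Z × W) => A (g φ) p.1 * A φ p.2 * Y p := by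
    simp only [LOWC_sub, LOWC_mul, LOWC_const]
  rw [e4] at hsum
  linarith

end Pool.Agent.DP
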