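import Pool.Agent.helper96.DP.SpecE
import Pool.Agent.helper96.DP.Basic

/-!
# The separation step (module SE3 of project dp)
-/

namespace DP

open MeasureTheory

/-! ## Locality -/

theorem SE3_ok_mono {s : Bool} {x : V} {r r' : ℕ} {D : Dat} (h : D.ok s x r)
    (hr : if s = true then r ≤ r' else r' ≤ r) : D.ok s x r' := by
  cases s with
  | true =>
    simp only [Dat.ok, if_true] at h hr ⊢
    exact ⟨fun i v hv => le_trans (h.1 i hv) hr, fun k v hv => le_trans (h.2 k hv) hr⟩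
  | false =>
    simp only [Dat.ok, Bool.false_eq_true, if_false] at h hr ⊢
    exact ⟨fun i v hv => le_trans hr (h.1 i hv), fun k v hv => le_trans hr (h.2.1 k hv), h.2.2⟩

/-- The region of the arms of one colour is finite. -/
theorem SE3_finite {s : Bool} {x : V} {r : ℕ} {D : Dat} (h : D.ok s x r) (n : ℕ) (k : Bool) :
    (HS s x n \ D.N k).Finite := by
  cases s with
  | true =>
    exact ((box_finite x n).subset (by intro v hv; simpa [HS] using hv.1))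
  | false =>
    simp only [Dat.ok, Bool.false_eq_true, if_false] at h
    obtain ⟨M, hM⟩ := h.2.2
    refine (box_finite x M).subset ?_
    intro v hv
    by_contra hc
    exact hv.2 (hM k (by simpa [box] using hc))

theorem SE3_MrkC_congr {c c' : V → Bool} {j : ℕ} {s : Bool} {x : V} {n : ℕ} {D : Dat}
    {y y' : ℕ → V} {a A : ℕ} {k : Bool} (hj : 0 < j) (hy : ∀ l < j, y l = y' l)
    (hc : ∀ v ∈ HS s x n \ D.N k, c v = c' v) (h : MrkC c j s x n D y a A k) :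
    MrkC c' j s x n D y' a A k := by
  have hopp : opp j y A k = opp j y' A k := by
    ext v
    constructor
    · rintro ⟨l, hl, h1, h2⟩
      exact ⟨l, hl, h1, by rw [← hy l hl]; exact h2⟩
    · rintro ⟨l, hl, h1, h2⟩
      exact ⟨l, hl, h1, by rw [hy l hl]; exact h2⟩
  have hcon : ∀ p u, Conn c k (HS s x n \ (D.N k ∪ opp j y A k)) p u →
      Conn c' k (HS s x n \ (D.N k ∪ opp j y' A k)) p u := by
    intro p u hpu
    rw [← hopp]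
    refine (Conn.congr (fun v hv => hc v ?_)).1 hpu
    exact ⟨hv.1, fun hN => hv.2 (Or.inl hN)⟩
  rcases h with h | h
  · left
    intro i hi hk
    obtain ⟨p, hp, u, hu, h1, h2⟩ := h i hi hk
    exact ⟨p, hp, u, hu, by rw [← hy i hi]; exact h1, hcon p u h2⟩
  · right
    intro i hi hk
    obtain ⟨p, hp, u, hu, h1, h2⟩ := h i hi hk
    exact ⟨p, hp, u, hu, by rw [← hy _ (Nat.mod_lt _ hj)]; exact h1, hcon p u h2⟩

theorem SE3_Mrk_loc {s : Bool} {x : V} {r : ℕ} {D : Dat} (h : D.ok s x r) (j n a A : ℕ)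
    (y : ℕ → V) (hj : 0 < j) : Loc (Ev fun c => Mrk c j s x n D y a A) Set.univ := by
  have hfin : ((HS s x n \ D.N true) ∪ (HS s x n \ D.N false)).Finite :=
    (SE3_finite h n true).union (SE3_finite h n false)
  refine Loc.mono (Loc.ev (A := (HS s x n \ D.N true) ∪ (HS s x n \ D.N false)) hfin ?_)
    (Set.subset_univ _)
  intro c c' hcc
  constructor
  · rintro ⟨h1, h2⟩
    exact ⟨SE3_MrkC_congr hj (fun _ _ => rfl) (fun v hv => hcc v (Or.inl hv)) h1,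
      SE3_MrkC_congr hj (fun _ _ => rfl) (fun v hv => hcc v (Or.inr hv)) h2⟩
  · rintro ⟨h1, h2⟩
    exact ⟨SE3_MrkC_congr hj (fun _ _ => rfl) (fun v hv => (hcc v (Or.inl hv)).symm) h1,
      SE3_MrkC_congr hj (fun _ _ => rfl) (fun v hv => (hcc v (Or.inr hv)).symm) h2⟩

/-! ## The net -/

/-- Points of the circle at the positions `a, 2 a, ..., K a` with `K a = 8 n`. -/
theorem SE3_net (hCG1 : CG1_stmt) (hCG2 : CG2_stmt) (x : V) (n a K : ℕ) (hn : 1 ≤ n) (ha : 1 ≤ a)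
    (hK : K * a = 8 * n) : ∃ τ : Fin K → V, (∀ t, τ t ∈ bd x n) ∧
      ∀ u ∈ bd x n, ∃ t, sd (τ t) u ≤ a := by
  obtain ⟨h1, _, h3⟩ := hCG1 x n hn
  have hex : ∀ t : Fin K, ∃ u ∈ bd x n, pos x n u = ((t : ℕ) + 1 : ℤ) * a := by
    intro t
    refine h3 _ (by positivity) ?_
    have ht : ((t : ℕ) + 1 : ℤ) ≤ K := by exact_mod_cast t.2
    have hK' : (K : ℤ) * a = 8 * n := by exact_mod_cast hK
    nlinarith [(by exact_mod_cast ha : (1 : ℤ) ≤ a)]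
  choose τ hτ hpos using hex
  refine ⟨τ, hτ, ?_⟩
  intro u hu
  obtain ⟨hu0, hu8⟩ := h1 u hu
  have hK' : (K : ℤ) * a = 8 * n := by exact_mod_cast hK
  have ha' : (1 : ℤ) ≤ a := by exact_mod_cast ha
  -- index: t = (pos - 1) / a
  have hq0 : 0 ≤ (pos x n u - 1) / (a : ℤ) := Int.ediv_nonneg (by omega) (by omega)
  have hqK : (pos x n u - 1) / (a : ℤ) < K := by
    apply Int.ediv_lt_of_lt_mul (by omega)
    rw [hK']
    omega
  obtain ⟨q, hq⟩ := Int.eq_ofNat_of_zero_le hq0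
  have hqK' : q < K := by
    rw [hq] at hqK
    exact_mod_cast hqK
  refine ⟨⟨q, hqK'⟩, ?_⟩
  have h4 := (hCG2 x n hn (τ ⟨q, hqK'⟩) (hτ _) u hu).1
  rw [hpos] at h4
  have h5 := Int.mul_ediv_add_emod (pos x n u - 1) (a : ℤ)
  have h6 := Int.emod_nonneg (pos x n u - 1) (show (a : ℤ) ≠ 0 by omega)
  have h7 := Int.emod_lt_of_pos (pos x n u - 1) (show 0 < (a : ℤ) by omega)
  rw [hq] at h5
  have h8 : |((q : ℕ) + 1 : ℤ) * a - pos x n u| ≤ a := by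
    rw [abs_le]
    constructor <;> nlinarith
  have h9 : (sd (τ ⟨q, hqK'⟩) u : ℤ) ≤ a := le_trans h4 h8
  exact_mod_cast h9

/-! ## Choice of the constants -/

theorem SE3_consts (C a ε : ℝ) (ha : 0 < a) (hε : 0 < ε) :
    ∃ d e : ℕ, 7 ≤ d ∧ d + 3 ≤ e ∧
      C * 4 * (((1 : ℝ) / 2) ^ (d - 4)) ^ a ≤ ε ∧
      C * 2 ^ (d - 1) * (((1 : ℝ) / 2) ^ (e - d)) ^ a ≤ ε := by
  set q : ℝ := ((1 : ℝ) / 2) ^ a with hq
  have hq0 : 0 < q := Real.rpow_pos_of_pos (by norm_num) a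
  have hq1 : q < 1 := Real.rpow_lt_one (by norm_num) (by norm_num) ha
  have hpow : ∀ k : ℕ, (((1 : ℝ) / 2) ^ k) ^ a = q ^ k := by
    intro k
    rw [hq, ← Real.rpow_natCast, ← Real.rpow_natCast, ← Real.rpow_mul (by norm_num),
      ← Real.rpow_mul (by norm_num), mul_comm]
  have key : ∀ B : ℝ, ∃ k : ℕ, ∀ k' ≥ k, B * q ^ k' ≤ ε := by
    intro B
    obtain ⟨k, hk⟩ := exists_pow_lt_of_lt_one (show (0 : ℝ) < ε / (|B| + 1) by positivity) hq1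
    refine ⟨k, fun k' hk' => ?_⟩
    have h1 : q ^ k' ≤ q ^ k := pow_le_pow_of_le_one hq0.le hq1.le hk'
    have h2 : 0 ≤ q ^ k' := by positivity
    calc B * q ^ k' ≤ (|B| + 1) * q ^ k' := by
          refine mul_le_mul_of_nonneg_right ?_ h2
          linarith [le_abs_self B]
      _ ≤ (|B| + 1) * (ε / (|B| + 1)) := by
          refine mul_le_mul_of_nonneg_left ?_ (by positivity)
          linarith
      _ = ε := by field_simp
  obtain ⟨k₁, hk₁⟩ := key (C * 4)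
  obtain ⟨k₂, hk₂⟩ := key (C * 2 ^ (k₁ + 7 - 1))
  refine ⟨k₁ + 7, k₁ + 7 + (k₂ + 3), by omega, by omega, ?_, ?_⟩
  · rw [hpow]
    exact hk₁ _ (by omega)
  · rw [hpow]
    exact hk₂ _ (by omega)

/-! ## The inequality for abstract events -/

theorem SE3_abstract (hBmono : Bmono_stmt) (hBsub : Bsub_stmt) (hBunion : Bunion_stmt)
    (hBcs : Bcs_stmt) (hBindep : Bindep_stmt) (hBmarg : Bmarg_stmt) (hBsymm : Bsymm_stmt)
    (ρ : V → ℝ) (hρ : Profile ρ) (F Y B : Set (V → Bool)) (N : ℕ) (M : Fin N → Set (V → Bool))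
    (A A' : Set V) (q δ : ℝ) (hFY : F ⊆ Y) (hF : F ⊆ B ∪ ⋃ i, M i)
    (hq : 0 ≤ q) (hM : ∀ i, Q ρ (M i) (M i) ≤ q) (hML : ∀ i, Loc (M i) Set.univ)
    (hAA : Disjoint A A') (hY : Loc Y A) (hB : Loc B A') (hδ : Pr B ≤ δ) :
    Q ρ F F ≤ (N : ℝ) * N * q + 2 * δ * Q ρ Y Y := by
  have hQ0 : ∀ G G' : Set (V → Bool), 0 ≤ Q ρ G G' := fun G G' => measureReal_nonneg
  have hFsub : F ⊆ (F ∩ B) ∪ (F ∩ ⋃ i, M i) := by
    intro b hb
    rcases hF hb with h | h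
    · exact Or.inl ⟨hb, h⟩
    · exact Or.inr ⟨hb, h⟩
  have h1 : Q ρ F F ≤ Q ρ (F ∩ B) F + Q ρ (F ∩ ⋃ i, M i) F :=
    le_trans (hBmono ρ _ _ _ _ hFsub subset_rfl) (hBsub ρ _ _ _).1
  have h2 : Q ρ (F ∩ ⋃ i, M i) F ≤ Q ρ (F ∩ ⋃ i, M i) (F ∩ B) +
      Q ρ (F ∩ ⋃ i, M i) (F ∩ ⋃ i, M i) :=
    le_trans (hBmono ρ _ _ _ _ subset_rfl hFsub) (hBsub ρ _ _ _).2
  have h3 : Q ρ (F ∩ B) F ≤ Q ρ (Y ∩ B) (Y ∩ Set.univ) :=
    hBmono ρ _ _ _ _ (Set.inter_subset_inter_left _ hFY) (by simpa using hFY)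
  have h4 : Q ρ (F ∩ ⋃ i, M i) (F ∩ B) ≤ Q ρ (Y ∩ Set.univ) (Y ∩ B) :=
    hBmono ρ _ _ _ _ (fun b hb => ⟨hFY hb.1, trivial⟩) (Set.inter_subset_inter_left _ hFY)
  have h5 : Q ρ (F ∩ ⋃ i, M i) (F ∩ ⋃ i, M i) ≤ ∑ i, ∑ j, Q ρ (M i) (M j) :=
    le_trans (hBmono ρ _ _ _ _ Set.inter_subset_right Set.inter_subset_right)
      (hBunion ρ N N M M)
  have h6 : Q ρ (Y ∩ B) (Y ∩ Set.univ) = Q ρ Y Y * Pr B := by
    rw [hBindep ρ Y Y B Set.univ A A' hAA hY hY hB (Loc.univ _), hBmarg ρ B A' hB]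
  have h7 : Q ρ (Y ∩ Set.univ) (Y ∩ B) = Q ρ Y Y * Pr B := by
    rw [hBindep ρ Y Y Set.univ B A A' hAA hY hY (Loc.univ _) hB,
      hBsymm ρ Set.univ B A' (Loc.univ _) hB, hBmarg ρ B A' hB]
  have h8 : ∀ i j, Q ρ (M i) (M j) ≤ q := by
    intro i j
    have h := hBcs ρ (M i) (M j) Set.univ hρ (hML i) (hML j)
    have h' : Q ρ (M i) (M i) * Q ρ (M j) (M j) ≤ q * q :=
      mul_le_mul (hM i) (hM j) (hQ0 _ _) hq
    nlinarith [hQ0 (M i) (M j)]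
  have h9 : ∑ i : Fin N, ∑ j : Fin N, Q ρ (M i) (M j) ≤ (N : ℝ) * N * q := by
    calc ∑ i : Fin N, ∑ j : Fin N, Q ρ (M i) (M j) ≤ ∑ _i : Fin N, ∑ _j : Fin N, q :=
          Finset.sum_le_sum fun i _ => Finset.sum_le_sum fun j _ => h8 i j
      _ = (N : ℝ) * N * q := by
          simp only [Finset.sum_const, Finset.card_univ, Fintype.card_fin, nsmul_eq_mul]
          ring
  have h10 : Q ρ Y Y * Pr B ≤ Q ρ Y Y * δ := mul_le_mul_of_nonneg_left hδ (hQ0 _ _)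
  linarith

/-! ## The index set -/

/-- The points of the net with the numbers `ι l`. -/
def SE3_y {K : ℕ} (x : V) (τ : Fin K → V) (ι : Fin 4 → Fin K) (l : ℕ) : V :=
  if h : l < 4 then τ (ι ⟨l, h⟩) else x

theorem SE3_Ord_congr {j : ℕ} (hj : j = 2 ∨ j = 4) {x : V} {n : ℕ} {y y' : ℕ → V}
    (h : ∀ l < j, y l = y' l) (ho : Ord j x n y) : Ord j x n y' := by
  unfold Ord at ho ⊢
  rcases hj with rfl | rfl
  · simpa [h 0 (by omega), h 1 (by omega)] using ho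
  · simpa [h 0 (by omega), h 1 (by omega), h 2 (by omega), h 3 (by omega)] using ho

theorem SE3_Mrk_congr {c : V → Bool} {j : ℕ} (hj : j = 2 ∨ j = 4) {s : Bool} {x : V} {n : ℕ}
    {D : Dat} {y y' : ℕ → V} {a A : ℕ} (h : ∀ l < j, y l = y' l)
    (hm : Mrk c j s x n D y a A) : Mrk c j s x n D y' a A :=
  ⟨SE3_MrkC_congr (by omega) h (fun _ _ => rfl) hm.1,
    SE3_MrkC_congr (by omega) h (fun _ _ => rfl) hm.2⟩

/-! ## Powers of two -/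

theorem SE3_pow {i d e h : ℕ} (hd : 7 ≤ d) (hde : d + 3 ≤ e) (heh : e + 4 ≤ h) (hhi : h ≤ i) :
    1 ≤ 2 ^ (i - h) ∧ 8 * 2 ^ (i - h) ≤ 2 ^ (i + 1 - e) ∧ 8 * 2 ^ (i + 1 - e) ≤ 2 ^ (i + 1 - d) ∧
      16 * 2 ^ (i + 1 - d) ≤ 2 ^ (i - 2) ∧ 8 ≤ 2 ^ (i + 1 - d) ∧ 4 * 2 ^ (i - 2) = 2 ^ i ∧
      2 ^ (i + 1 - d) = 2 * 2 ^ (i - d) ∧ 2 ^ (i + 1 - e) = 2 * 2 ^ (i - e) ∧
      (8 * 2 ^ h) * 2 ^ (i - h) = 8 * 2 ^ i ∧ 2 ^ (i - 1) = 2 * 2 ^ (i - 2) ∧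
      2 ^ (i + 1) = 8 * 2 ^ (i - 2) := by
  have hp : ∀ a b : ℕ, a ≤ b → 2 ^ a ≤ 2 ^ b := fun a b hab => Nat.pow_le_pow_right (by norm_num) hab
  refine ⟨Nat.one_le_two_pow, ?_, ?_, ?_, ?_, ?_, ?_, ?_, ?_, ?_, ?_⟩
  · calc 8 * 2 ^ (i - h) = 2 ^ (i - h + 3) := by ring
      _ ≤ _ := hp _ _ (by omega)
  · calc 8 * 2 ^ (i + 1 - e) = 2 ^ (i + 1 - e + 3) := by ring
      _ ≤ _ := hp _ _ (by omega)
  · calc 16 * 2 ^ (i + 1 - d) = 2 ^ (i + 1 - d + 4) := by ring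
      _ ≤ _ := hp _ _ (by omega)
  · calc 8 = 2 ^ 3 := by norm_num
      _ ≤ _ := hp _ _ (by omega)
  · calc 4 * 2 ^ (i - 2) = 2 ^ (i - 2 + 2) := by ring
      _ = _ := by congr 1; omega
  · calc 2 ^ (i + 1 - d) = 2 ^ (i - d + 1) := by congr 1; omega
      _ = _ := by ring
  · calc 2 ^ (i + 1 - e) = 2 ^ (i - e + 1) := by congr 1; omega
      _ = _ := by ring
  · calc (8 * 2 ^ h) * 2 ^ (i - h) = 8 * 2 ^ (h + (i - h)) := by ring
      _ = _ := by congr 2; omega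
  · calc 2 ^ (i - 1) = 2 ^ (i - 2 + 1) := by congr 1; omega
      _ = _ := by ring
  · calc 2 ^ (i + 1) = 2 ^ (i - 2 + 3) := by congr 1; omega
      _ = _ := by ring

/-! ## The bad events -/

theorem SE3_bad (hBsub : Bsub_stmt) (hBmarg : Bmarg_stmt) (hDL : DL_stmt) (C a ε : ℝ) (ha : 0 < a)
    (hC : 0 < C)
    (hDB : ∀ (s : Bool) (x : V) (n r R : ℕ), Even (x.1 + x.2) →
      1 ≤ r → r ≤ R → R ≤ n →
        Pr (Ev fun c => Bad s c x n r R) ≤ C * ((n : ℝ) / R) * ((r : ℝ) / R) ^ a)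
    {i d e h : ℕ} (hd : 7 ≤ d) (hde : d + 3 ≤ e) (heh : e + 4 ≤ h) (hhi : h ≤ i)
    (h1 : C * 4 * (((1 : ℝ) / 2) ^ (d - 4)) ^ a ≤ ε)
    (h2 : C * 2 ^ (d - 1) * (((1 : ℝ) / 2) ^ (e - d)) ^ a ≤ ε) (s : Bool) (x : V)
    (hx : Even (x.1 + x.2)) :
    Pr ((Ev fun c => Bad s c x (2 ^ i) (2 ^ (i + 1 - d) + 4) (2 ^ (i - 2))) ∪
      Ev fun c => Bad s c x (2 ^ i) (2 ^ (i + 1 - e)) (2 ^ (i + 1 - d))) ≤ ε + ε := by
  obtain ⟨p1, p2, p3, p4, p5, p6, p7, p8, p9, p10, p11⟩ := SE3_pow hd hde heh hhi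
  have hL1 := hDL s x (2 ^ i) (2 ^ (i + 1 - d) + 4) (2 ^ (i - 2)) (by omega)
  have hL2 := hDL s x (2 ^ i) (2 ^ (i + 1 - e)) (2 ^ (i + 1 - d)) (by omega)
  set B₁ := Ev fun c => Bad s c x (2 ^ i) (2 ^ (i + 1 - d) + 4) (2 ^ (i - 2)) with hB₁
  set B₂ := Ev fun c => Bad s c x (2 ^ i) (2 ^ (i + 1 - e)) (2 ^ (i + 1 - d)) with hB₂
  have hU : Pr (B₁ ∪ B₂) ≤ Pr B₁ + Pr B₂ := by
    have h := (hBsub (fun _ => 0) B₁ B₂ Set.univ).1
    rw [hBmarg (fun _ => 0) B₁ _ hL1, hBmarg (fun _ => 0) B₂ _ hL2,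
      hBmarg (fun _ => 0) (B₁ ∪ B₂) Set.univ
        ((hL1.mono (Set.subset_univ _)).union (hL2.mono (Set.subset_univ _)) |>.mono
          (Set.subset_univ _))] at h
    exact h
  have hb1 := hDB s x (2 ^ i) (2 ^ (i + 1 - d) + 4) (2 ^ (i - 2)) hx (by omega) (by omega)
    (by omega)
  have hb2 := hDB s x (2 ^ i) (2 ^ (i + 1 - e)) (2 ^ (i + 1 - d)) hx (by omega) (by omega)
    (by omega)
  have e1 : ((2 ^ i : ℕ) : ℝ) / ((2 ^ (i - 2) : ℕ) : ℝ) = 4 := by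
    rw [← p6]
    push_cast
    field_simp
  have e2 : ((2 ^ i : ℕ) : ℝ) / ((2 ^ (i + 1 - d) : ℕ) : ℝ) = 2 ^ (d - 1) := by
    have h3 : 2 ^ i = 2 ^ (d - 1) * 2 ^ (i + 1 - d) := by
      rw [← pow_add]; congr 1; omega
    rw [h3]
    push_cast
    field_simp
  have e3 : ((2 ^ (i + 1 - e) : ℕ) : ℝ) / ((2 ^ (i + 1 - d) : ℕ) : ℝ) = (1 / 2) ^ (e - d) := by
    have h3 : 2 ^ (i + 1 - d) = 2 ^ (e - d) * 2 ^ (i + 1 - e) := by
      rw [← pow_add]; congr 1; omega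
    rw [h3]
    push_cast
    rw [one_div, inv_pow]
    field_simp
  have e4 : ((2 ^ (i + 1 - d) + 4 : ℕ) : ℝ) / ((2 ^ (i - 2) : ℕ) : ℝ) ≤ (1 / 2) ^ (d - 4) := by
    have h3 : 2 ^ (i - 2) = 2 ^ (d - 4) * (2 * 2 ^ (i + 1 - d)) := by
      rw [← pow_succ', ← pow_add]; congr 1; omega
    have h4 : ((2 ^ (i + 1 - d) + 4 : ℕ) : ℝ) ≤ 2 * ((2 ^ (i + 1 - d) : ℕ) : ℝ) := by
      have : 2 ^ (i + 1 - d) + 4 ≤ 2 * 2 ^ (i + 1 - d) := by omega
      exact_mod_cast this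
    rw [h3]
    rw [div_le_iff₀ (by positivity)]
    refine le_trans h4 (le_of_eq ?_)
    push_cast
    rw [one_div, inv_pow]
    field_simp
  rw [e1] at hb1
  rw [e2, e3] at hb2
  have h5 : (((2 ^ (i + 1 - d) + 4 : ℕ) : ℝ) / ((2 ^ (i - 2) : ℕ) : ℝ)) ^ a ≤
      (((1 : ℝ) / 2) ^ (d - 4)) ^ a := Real.rpow_le_rpow (by positivity) e4 ha.le
  have h6 : Pr B₁ ≤ ε := by
    refine le_trans hb1 (le_trans ?_ h1)
    exact mul_le_mul_of_nonneg_left h5 (by positivity)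
  linarith

/-! ## The statement -/

theorem SE3 (hCG1 : CG1_stmt) (hCG2 : CG2_stmt) (hDB : DB_stmt) (hDL : DL_stmt) (hNT : NT_stmt)
    (hSE2 : SE2_stmt) (hBmono : Bmono_stmt) (hBsub : Bsub_stmt) (hBunion : Bunion_stmt)
    (hBcs : Bcs_stmt) (hBindep : Bindep_stmt) (hBmarg : Bmarg_stmt) (hBsymm : Bsymm_stmt) :
    SE3_stmt := by
  classical
  intro ε hε
  obtain ⟨CB, hCB, a, ha, hDB⟩ := hDB
  obtain ⟨d, e, hd, hde, hc1, hc2⟩ := SE3_consts CB a (ε / 4) ha (by positivity)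
  obtain ⟨h, heh, C₂, hC₂, i₁, hhi₁, hSE2⟩ := hSE2 d e (by omega) (by omega)
  refine ⟨((8 * 2 ^ h : ℕ) : ℝ) ^ 4 * ((8 * 2 ^ h : ℕ) : ℝ) ^ 4 * C₂, by positivity, i₁, ?_⟩
  intro j s ρ x D Xp Xm Y i hj hρ hx hi hD hX hY hFY
  have hhi : h ≤ i := le_trans hhi₁ hi
  obtain ⟨p1, p2, p3, p4, p5, p6, p7, p8, p9, p10, p11⟩ := SE3_pow hd hde heh hhi
  obtain ⟨τ, hτ, hnet⟩ := SE3_net hCG1 hCG2 x (2 ^ i) (2 ^ (i - h)) (8 * 2 ^ h) (by omega) p1 p9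
  set B₁ := Ev fun c => Bad s c x (2 ^ i) (2 ^ (i + 1 - d) + 4) (2 ^ (i - 2)) with hB₁
  set B₂ := Ev fun c => Bad s c x (2 ^ i) (2 ^ (i + 1 - e)) (2 ^ (i + 1 - d)) with hB₂
  have hBd : Pr (B₁ ∪ B₂) ≤ ε / 4 + ε / 4 :=
    SE3_bad hBsub hBmarg hDL CB a (ε / 4) ha hCB hDB hd hde heh hhi hc1 hc2 s x hx
  -- locality of the extra events
  have hXL : Loc (Xp ∩ Xm) Set.univ := by
    cases s with
    | true =>
      obtain ⟨-, -, hX⟩ := hX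
      simp only [if_true] at hX
      exact (hX.1.inter hX.2).mono (Set.subset_univ _)
    | false =>
      obtain ⟨-, -, hX⟩ := hX
      simp only [Bool.false_eq_true, if_false] at hX
      exact (hX.1.inter hX.2).mono (Set.subset_univ _)
  -- the index set
  let P : (Fin 4 → Fin (8 * 2 ^ h)) → Prop := fun ι => Ord j x (2 ^ i) (SE3_y x τ ι) ∧
    ∀ l < j, ∀ l' < j, l ≠ l' → 2 ^ (i - d) ≤ sd (SE3_y x τ ι l) (SE3_y x τ ι l')
  let N : ℕ := Fintype.card {ι : Fin 4 → Fin (8 * 2 ^ h) // P ι}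
  have hN : (N : ℝ) ≤ ((8 * 2 ^ h : ℕ) : ℝ) ^ 4 := by
    have h1 : N ≤ Fintype.card (Fin 4 → Fin (8 * 2 ^ h)) := Fintype.card_subtype_le _
    have h2 : Fintype.card (Fin 4 → Fin (8 * 2 ^ h)) = (8 * 2 ^ h) ^ 4 := by
      rw [Fintype.card_fun, Fintype.card_fin, Fintype.card_fin]
    rw [h2] at h1
    exact_mod_cast h1
  let E : Fin N ≃ {ι : Fin 4 → Fin (8 * 2 ^ h) // P ι} := (Fintype.equivFin _).symm
  let M : Fin N → Set (V → Bool) := fun t => (Xp ∩ Xm) ∩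
    Ev fun c => Mrk c j s x (2 ^ i) D (SE3_y x τ (E t).1) (2 ^ (i - h)) (2 ^ (i - e))
  have hyb : ∀ (ι : Fin 4 → Fin (8 * 2 ^ h)), ∀ l < j, SE3_y x τ ι l ∈ bd x (2 ^ i) := by
    intro ι l hl
    have hl4 : l < 4 := by omega
    simp only [SE3_y, hl4, dif_pos]
    exact hτ _
  have hcover : ((Xp ∩ Xm) ∩ Ev fun c => Fam c j s x (2 ^ i) D) ⊆ (B₁ ∪ B₂) ∪ ⋃ t, M t := by
    intro b hb
    by_cases hbad : b ∈ B₁ ∪ B₂
    · exact Or.inl hbad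
    right
    have hb1 : ¬ Bad s (col b) x (2 ^ i) (2 ^ (i + 1 - d) + 4) (2 ^ (i - 2)) :=
      fun h' => hbad (Or.inl h')
    have hb2 : ¬ Bad s (col b) x (2 ^ i) (2 ^ (i + 1 - e)) (2 ^ (i + 1 - d)) :=
      fun h' => hbad (Or.inr h')
    have hok : D.ok s x (if s = true then (if s = true then 3 * 2 ^ (i - 2) else 5 * 2 ^ (i - 2)) - 1
        else (if s = true then 3 * 2 ^ (i - 2) else 5 * 2 ^ (i - 2)) + 1) := by
      refine SE3_ok_mono hD ?_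
      cases s with
      | true =>
        simp only [if_true]
        omega
      | false =>
        simp only [Bool.false_eq_true, if_false]
        omega
    have hgap : gap s (2 ^ i) (if s = true then 3 * 2 ^ (i - 2) else 5 * 2 ^ (i - 2))
        (2 ^ (i - 2)) := by
      cases s with
      | true =>
        simp only [gap, if_true]
        omega
      | false =>
        simp only [gap, Bool.false_eq_true, if_false]
        omega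
    have hn' : 1 ≤ (if s = true then 3 * 2 ^ (i - 2) else 5 * 2 ^ (i - 2)) := by
      split_ifs <;> omega
    obtain ⟨y, hyT, hyO, hyS, hyM⟩ := hNT (col b) j s x (2 ^ i)
      (if s = true then 3 * 2 ^ (i - 2) else 5 * 2 ^ (i - 2)) (2 ^ (i + 1 - e)) (2 ^ (i + 1 - d))
      (2 ^ (i - 2)) (2 ^ (i - h)) D (Set.range τ) hj hx hn' hgap p1 p2 p3 p4 (by omega) p5 hok
      (by rintro _ ⟨t, rfl⟩; exact hτ t)
      (by
        intro u hu
        obtain ⟨t, ht⟩ := hnet u hu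
        exact ⟨τ t, ⟨t, rfl⟩, ht⟩) hb1 hb2 hb.2
    have hr2 : 2 ^ (i + 1 - d) / 2 = 2 ^ (i - d) := by omega
    have hr1 : 2 ^ (i + 1 - e) / 2 = 2 ^ (i - e) := by omega
    rw [hr2] at hyS
    rw [hr1] at hyM
    have hι : ∀ l : Fin 4, ∃ t : Fin (8 * 2 ^ h), (l : ℕ) < j → τ t = y l := by
      intro l
      by_cases hl : (l : ℕ) < j
      · obtain ⟨t, ht⟩ := hyT l hl
        exact ⟨t, fun _ => ht⟩
      · exact ⟨⟨0, by positivity⟩, fun h' => absurd h' hl⟩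
    choose ι hι using hι
    have hyy : ∀ l < j, y l = SE3_y x τ ι l := by
      intro l hl
      have hl4 : l < 4 := by omega
      simp only [SE3_y, hl4, dif_pos]
      exact (hι ⟨l, hl4⟩ hl).symm
    have hP : P ι := by
      refine ⟨SE3_Ord_congr hj hyy hyO, ?_⟩
      intro l hl l' hl' hll
      rw [← hyy l hl, ← hyy l' hl']
      exact hyS l hl l' hl' hll
    refine Set.mem_iUnion.2 ⟨E.symm ⟨ι, hP⟩, hb.1, ?_⟩
    show Mrk (col b) j s x (2 ^ i) D (SE3_y x τ (E (E.symm ⟨ι, hP⟩)).1) (2 ^ (i - h)) (2 ^ (i - e))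
    rw [Equiv.apply_symm_apply]
    exact SE3_Mrk_congr hj hyy hyM
  have hQ0 : ∀ G G' : Set (V → Bool), 0 ≤ Q ρ G G' := fun G G' => measureReal_nonneg
  set qS := Q ρ ((Xp ∩ Xm) ∩ Ev fun c => Std c j s x (nx s (2 ^ i)) D)
          ((Xp ∩ Xm) ∩ Ev fun c => Std c j s x (nx s (2 ^ i)) D) with hqS
  have hqS0 : 0 ≤ qS := hQ0 _ _
  have hAA : ∃ A A' : Set V, Disjoint A A' ∧ Loc Y A ∧ Loc (B₁ ∪ B₂) A' := by
    refine ⟨if s = true then box x (2 ^ (i - 1)) else {v | 2 ^ (i + 1) ≤ sd x v},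
      {v | 2 ^ i ≤ sd x v + 2 ^ (i - 2) ∧ sd x v ≤ 2 ^ i + 2 ^ (i - 2)}, ?_, ?_, ?_⟩
    · rw [Set.disjoint_left]
      intro v hv hv'
      cases s with
      | true =>
        simp only [if_true, box, Set.mem_setOf_eq] at hv hv'
        omega
      | false =>
        simp only [Bool.false_eq_true, if_false, Set.mem_setOf_eq] at hv hv'
        omega
    · cases s with
      | true => simpa using hY
      | false => simpa using hY
    · have hL1 := hDL s x (2 ^ i) (2 ^ (i + 1 - d) + 4) (2 ^ (i - 2)) (by omega)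
      have hL2 := hDL s x (2 ^ i) (2 ^ (i + 1 - e)) (2 ^ (i + 1 - d)) (by omega)
      refine Loc.mono (Loc.union hL1 hL2) ?_
      intro v hv
      simp only [Set.mem_union, Set.mem_setOf_eq] at hv ⊢
      omega
  obtain ⟨A, A', hdis, hLY, hLB⟩ := hAA
  have hfin := SE3_abstract hBmono hBsub hBunion hBcs hBindep hBmarg hBsymm ρ hρ
    ((Xp ∩ Xm) ∩ Ev fun c => Fam c j s x (2 ^ i) D) Y (B₁ ∪ B₂) N M A A' (C₂ * qS) (ε / 2) hFY
    hcover (by positivity)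
    (fun t => hSE2 j s ρ x D Xp Xm i (SE3_y x τ (E t).1) hj hρ hx hi hD hX (hyb _) (E t).2.1
      (E t).2.2)
    (fun t => (hXL.inter (SE3_Mrk_loc hD j (2 ^ i) (2 ^ (i - h)) (2 ^ (i - e)) _
      (by omega))).mono (Set.subset_univ _))
    hdis hLY hLB (by linarith)
  have hNN : (N : ℝ) * N * (C₂ * qS) ≤
      ((8 * 2 ^ h : ℕ) : ℝ) ^ 4 * ((8 * 2 ^ h : ℕ) : ℝ) ^ 4 * (C₂ * qS) := by
    refine mul_le_mul_of_nonneg_right ?_ (by positivity)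
    exact mul_le_mul hN hN (by positivity) (by positivity)
  calc _ ≤ (N : ℝ) * N * (C₂ * qS) + 2 * (ε / 2) * Q ρ Y Y := hfin
    _ ≤ _ := by
      have h3 : 2 * (ε / 2) * Q ρ Y Y = ε * Q ρ Y Y := by ring
      rw [h3]
      linarith

end DP
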